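import Pool.Agent.L7h34.PG.Str

/-!
# Project PG: the statements of the parts

Problem MP_19b7cf_lc. THEOREM (full answer YES to Q1): no sentence of homotopical first-order logic over
one sort and one binary function symbol expresses the `A_4` condition (Stasheff pentagon).

Idea. `XX S` (file Str) is the disjoint union of points `zero`, `z`, `u (l, s)`, `m (k, e, s)` and of
classifying spaces `y (l, s, -)` of a centerless group `G` of order 18; the objects `(l, s)` have a level
`l` and an index `s : S`, `m (k, e, s)` is a morphism with source `(src k, s)` and target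
`(tgt k, σ ^ (sh k) s)`; the nonzero products are `z · u x = y (x, 1)`, `u x · d = u x'`,
`y (x, c) · d = y (x', P_d c)` (for `d : x → x'`), `d · d'` = composite. The endomorphism
`P_d = α ^ e ∘ β ^ (sh k)` of `G` is functorial only up to the conjugation by `τ`.
An `A_4` structure amounts to elements `g_d` of `G` with `t_{d,d'} g_{dd'} = P_{d'} (g_d) g_{d'}`, where
`t_{d,d'}` in `{1, τ}` is forced since `G` is centerless; taking signs, it gives a colouring
`ε : S → Z / 2` with `ε (σ s) = ε s + 1` (parts GB), and conversely (parts GA). An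
Ehrenfeucht-Fraissé argument over connected simplicial sets (parts MUL, TERM, HOM, EXT, BIS) shows that a
sentence does not distinguish the two index sets `ZMod N × ℕ` with `σ (i, j) = (i + 1, j)`, `N` large or
`N = 0`. For `N = 0` there is a colouring, for `N` odd there is none.
-/

set_option autoImplicit false

namespace Pool.Agent.L7h34.PG

open CategoryTheory Opposite Limits MonoidalCategory
open Pool.Agent.L7h74.HS (pw pr prn cns)

/-- **KJ** (Kripke-Joyal). Copy `Pool/Agent/L7h75/HS/Kj.lean` (theorem `kj`), with `tm μ s` instead of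
`pr X i` in the case of equality; `S_CMP` there is a theorem of `L7h75/HS/Cmp.lean`; no other change. -/
def S_KJ : Prop :=
  ∀ (X : SSet.{0}) (μ : X ⊗ X ⟶ X) (n : ℕ) (φ : Form n) (E : Over (pw X n)), IsInterp μ φ E →
    ∀ (Z : SSet.{0}) (_ : Z.IsConnected) (a : Z ⟶ pw X n),
      Nonempty (Over.mk a ⟶ E) ↔ Forces μ φ Z a

/-- **EXI**. Adapt the last third of `Pool/Agent/L7h34/HS/Exi.lean` (the object of the homotopies `EqO`
and `eq_univ`), with two arbitrary maps `f g : B ⟶ X` (or `tm μ s`, `tm μ t : pw X n ⟶ X`) instead of the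
two projections `pr X i`, `pr X j`; import that file for `pi_univ`, `exp_univ`, `mkH`. -/
def S_EXI : Prop :=
  ∀ (X : SSet.{0}) (μ : X ⊗ X ⟶ X) (n : ℕ) (φ : Form n), ∃ E : Over (pw X n), IsInterp μ φ E

/-- **KAN**. `XX S` is a Kan complex. Use `SSet.KanComplex.iff` and Yoneda: given `n`,
`i : Fin (n + 2)` and simplices `x_j` of dimension `n` (`j ≠ i`) that agree on the common faces, find
a simplex `x` of dimension `n + 1` with `δ_j x = x_j`. For `n = 0` take the degenerate simplex on the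
only `x_j`. For `n ≥ 1`: all the `x_j` contain the vertex `i`, hence they have the same shape without
the component `c` (constructor, level, kind, exponent, index), so either they are all equal to the same
constant simplex, or they are `y l c_j s`, with `c_j : Bg n`. For a vertex `v : Fin (n + 2)` choose
`j ≠ i`, `j ≠ v` and let `h v := c_j i' v'`, where `i'`, `v'` are the preimages of `i`, `v` under
`δ_j` (independent of `j` since `c_j`, `c_{j'}` agree on the common face, `h i = 1`). The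
filler is `y l c s` with `c v w := (h v)⁻¹ * h w`; its face `j` is `c_j` since
`c_j v' w' = c_j v' i' * c_j i' w'`. -/
def S_KAN : Prop := ∀ S : Type, SSet.KanComplex (XX S)

/-! ### The back and forth argument -/

/-- replacing the indices by `s'` is simplicial -/
def rn {S S' : Type} (s' : S') : XX S ⟶ XX S' where
  app m := ↾ El.ren s'
  naturality m m' f := by
    ext x
    rcases x with _ | _ | ⟨(_ | _ | _), s⟩ <;> rfl

/-- **CON**. A map from a connected simplicial set to `XX S` has a constant shape. The function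
`x ↦ x.map (fun _ => ())` from the simplices of `XX S` to `El Unit S` is invariant under all
simplicial operators, so it factors through `π₀ Z` (see `cl`, `cl_map` in `L7h75/HS/Cmp.lean`). -/
def S_CON : Prop :=
  ∀ (S : Type) (Z : SSet.{0}) (_ : Z.IsConnected) (f : Z ⟶ XX S),
    ∃ δ : El Unit S, ∀ (m : SimplexCategoryᵒᵖ) (z : Z.obj m), (f.app m z).map (fun _ => ()) = δ

/-- **MUL**. By CON, `f` and `g` have constant shapes `δ₁`, `δ₂`, and the condition `f = f ≫ rn p`
says that the index of `δ₁`, if any, is `p`. Case distinction on `δ₁`, `δ₂`: the product is `zero` or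
without index (any choice works, e.g. the first with `b = false`), or it is `z · u` (second alternative)
or `ix · ix` with `tbl` giving `(c, i, b)` (first alternative with this `b`; the condition on the
indices, `q = sft σ i p`, is equivalent to `q' = sft σ' i p'`). -/
def S_MUL : Prop :=
  ∀ (S S' : Type) (σ : Equiv.Perm S) (σ' : Equiv.Perm S') (Z : SSet.{0}) (_ : Z.IsConnected)
    (f g : Z ⟶ XX S) (p q : S) (p' q' : S'), f = f ≫ rn p → g = g ≫ rn q →
    (∀ b : Bool, q = sft σ b p ↔ q' = sft σ' b p') →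
    (∃ b : Bool, pair f g ≫ mm σ = (pair f g ≫ mm σ) ≫ rn (sft σ b p) ∧
      pair (f ≫ rn p') (g ≫ rn q') ≫ mm σ' = (pair f g ≫ mm σ) ≫ rn (sft σ' b p')) ∨
    (pair f g ≫ mm σ = (pair f g ≫ mm σ) ≫ rn q ∧
      pair (f ≫ rn p') (g ≫ rn q') ≫ mm σ' = (pair f g ≫ mm σ) ≫ rn q')

/-- **HOM**. If `p = q`, compose the homotopy with `rn p'` (`p' = q'`). If `p ≠ q`, the homotopy joins
`f z` and `g z` for a vertex `z` of `Z` by an edge of `XX S`, so they have the same shape; it has no index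
(else the index is `p` and `q`), so by CON `f` and `g` have a constant shape without index,
`g ≫ rn p' = g ≫ rn q'`, and again one composes the homotopy with `rn p'`. -/
def S_HOM : Prop :=
  ∀ (S S' : Type) (Z : SSet.{0}) (_ : Z.IsConnected) (f g : Z ⟶ XX S) (p q : S) (p' q' : S'),
    f = f ≫ rn p → g = g ≫ rn q → (p = q → p' = q') → Nonempty (SSet.Homotopy f g) →
      Nonempty (SSet.Homotopy (f ≫ rn p') (g ≫ rn q'))

/-- the tuples `s`, `s'` of indices have the same distances up to `r` -/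
def Dst {S S' : Type} (σ : Equiv.Perm S) (σ' : Equiv.Perm S') (r : ℕ) {n : ℕ} (s : Fin n → S)
    (s' : Fin n → S') : Prop :=
  ∀ (i j : Fin n) (d : ℤ), |d| ≤ r → (s j = (σ ^ d) (s i) ↔ s' j = (σ' ^ d) (s' i))

/-- the maps `a`, `a'` differ only by the indices `s`, `s'`, which have the same distances up to `r` -/
def Rel {S S' : Type} (σ : Equiv.Perm S) (σ' : Equiv.Perm S') (r : ℕ) {n : ℕ} {Z : SSet.{0}}
    (a : Z ⟶ pw (XX S) n) (a' : Z ⟶ pw (XX S') n) (s : Fin n → S) (s' : Fin n → S') : Prop :=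
  (∀ i, a ≫ pr _ i = (a ≫ pr _ i) ≫ rn (s i)) ∧ (∀ i, a' ≫ pr _ i = (a ≫ pr _ i) ≫ rn (s' i)) ∧
    Dst σ σ' r s s'

/-- the number of function symbols -/
def Term.sz {n : ℕ} : Term n → ℕ
  | .var _ => 0
  | .mul s t => s.sz + t.sz + 1

/-- **TERM**. Induction on `t`, with MUL (as hypothesis). For `t = mul t₁ t₂` with `(i₁, d₁)`,
`(i₂, d₂)`: `p = σ ^ d₁ s_{i₁}`, `q = σ ^ d₂ s_{i₂}`, same for `p'`, `q'`; `q = σ ^ k p` (`k = 0, 1`) is
`s_{i₂} = σ ^ (d₁ + k - d₂) s_{i₁}`, and `|d₁ + k - d₂| ≤ sz t ≤ r`. The result has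
`(i, d) = (i₁, d₁ + b)` or `(i₂, d₂)`. -/
def S_TERM : Prop :=
  ∀ (S S' : Type) (σ : Equiv.Perm S) (σ' : Equiv.Perm S') (Z : SSet.{0}) (_ : Z.IsConnected)
    (r n : ℕ) (a : Z ⟶ pw (XX S) n) (a' : Z ⟶ pw (XX S') n) (s : Fin n → S) (s' : Fin n → S'),
    Rel σ σ' r a a' s s' → ∀ t : Term n, t.sz ≤ r → ∃ (i : Fin n) (d : ℤ), |d| ≤ t.sz ∧
      a ≫ tm (mm σ) t = (a ≫ tm (mm σ) t) ≫ rn ((σ ^ d) (s i)) ∧
      a' ≫ tm (mm σ') t = (a ≫ tm (mm σ) t) ≫ rn ((σ' ^ d) (s' i))

/-- the permutation `(i, j) ↦ (i + 1, j)` -/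
def cyc (N : ℕ) : Equiv.Perm (ZMod N × ℕ) :=
  (Equiv.addRight (1 : ZMod N)).prodCongr (Equiv.refl ℕ)

/-- `N` is large with respect to `r` (`ZMod 0` is the set of the integers) -/
def Big (N r : ℕ) : Prop := N = 0 ∨ r < N

/-- **EXT**. If `t = σ ^ d s_i` with `|d| ≤ r`, take `t' = σ' ^ d s'_i`; the distances
between `s_j` and `t` follow from `|e ± d| ≤ 2 r`. Else take `t' = (0, k)` with `k` different from the
second components of all the `s'_i`. For `t` itself: `σ ^ d t = t` iff `(d : ZMod N) = 0`, which for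
`|d| ≤ r` is `d = 0` since `N` is large. -/
def S_EXT : Prop :=
  ∀ (N N' r : ℕ), Big N r → Big N' r → ∀ (n : ℕ) (s : Fin n → ZMod N × ℕ) (s' : Fin n → ZMod N' × ℕ),
    Dst (cyc N) (cyc N') (2 * r) s s' → ∀ t : ZMod N × ℕ, ∃ t' : ZMod N' × ℕ,
      Dst (cyc N) (cyc N') r (Fin.snoc (α := fun _ => ZMod N × ℕ) s t)
        (Fin.snoc (α := fun _ => ZMod N' × ℕ) s' t')

/-- the radius of a formula -/
def rk : {n : ℕ} → Form n → ℕ
  | _, .top => 0
  | _, .bot => 0
  | _, .eq s t => s.sz + t.sz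
  | _, .and φ ψ => max (rk φ) (rk ψ)
  | _, .or φ ψ => max (rk φ) (rk ψ)
  | _, .imp φ ψ => max (rk φ) (rk ψ)
  | _, .all φ => 2 * rk φ
  | _, .ex φ => 2 * rk φ

/-- **BIS** (may assume `S_CON`, `S_TERM`, `S_HOM`, `S_EXT`). Induction on `φ`, for all `N`, `N'` at the
same time. `Rel` is symmetric and stable under restriction `f ≫ a` and under smaller `r`. Equality:
TERM for both terms and HOM. Implication: use the induction hypothesis with `N`, `N'` exchanged.
`∃ b`: `b = b ≫ rn t` for some `t` by CON (any `t` if the shape has no index); take `t'` from EXT and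
`b' = b ≫ rn t'`; the related maps are `cns a b`, `cns a' b'` (`cns_last`, `cns_prn` in
`L7h75/HS/Bas.lean`). `∀ b'`: symmetric. -/
def S_BIS : Prop :=
  ∀ (n : ℕ) (φ : Form n) (N N' : ℕ), Big N (rk φ) → Big N' (rk φ) →
    ∀ (Z : SSet.{0}) (_ : Z.IsConnected) (a : Z ⟶ pw (XX (ZMod N × ℕ)) n)
      (a' : Z ⟶ pw (XX (ZMod N' × ℕ)) n) (s : Fin n → ZMod N × ℕ) (s' : Fin n → ZMod N' × ℕ),
      Rel (cyc N) (cyc N') (rk φ) a a' s s' →
        Forces (mm (cyc N)) φ Z a → Forces (mm (cyc N')) φ Z a'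

/-! ### From a colouring to the pentagon -/

section GA

variable {S : Type} (σ : Equiv.Perm S)

/-- the exponent of the homotopy `α` at `(a, b, c)` -/
def lam {B : Type} (ε : S → ZMod 2) : El B S → El B S → El B S → ZMod 2
  | .z, .ix (.u _) _, .ix (.m k e) s => e * ε (sft σ (sh k) s)
  | .ix (.y _ _) _, .ix (.m _ e) _, .ix (.m k' _) _ => if sh k' then e else 0
  | _, _, _ => 0

theorem tp_sq (e : ZMod 2) : tp e * tp e = 1 := by
  unfold tp
  split_ifs
  · rfl
  · rfl

/-- the conjugate of a simplex of the classifying space by the powers of `τ` with exponents `h` -/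
def Bg.cj {m : SimplexCategoryᵒᵖ} (h : Fin (m.unop.len + 1) → ZMod 2) (c : Bg m) : Bg m :=
  ⟨fun i j => tp (h i) * c.1 i j * tp (h j), fun i j k => by
    have h1 := tp_sq (h j)
    have h2 := c.2 i j k
    calc tp (h i) * c.1 i j * tp (h j) * (tp (h j) * c.1 j k * tp (h k)) =
        tp (h i) * c.1 i j * (tp (h j) * tp (h j)) * (c.1 j k * tp (h k)) := by
          simp only [mul_assoc]
      _ = tp (h i) * (c.1 i j * c.1 j k) * tp (h k) := by
          rw [h1]
          simp only [mul_assoc, mul_one, one_mul]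
      _ = tp (h i) * c.1 i k * tp (h k) := by rw [h2]⟩

/-- the conjugate of an element -/
def gy {m : SimplexCategoryᵒᵖ} (h : Fin (m.unop.len + 1) → ZMod 2) : El (Bg m) S → El (Bg m) S
  | .ix (.y l c) s => .ix (.y l (c.cj h)) s
  | x => x

end GA

/-- the product of simplices of `XX S` -/
noncomputable def ml {S : Type} (σ : Equiv.Perm S) {m : SimplexCategoryᵒᵖ} (a b : El (Bg m) S) :
    El (Bg m) S := mul (Bg.one m) (Bg.P m) σ a b

/-- **GA1** (associativity up to conjugation). Case distinction on the constructors; in the case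
`(z, u, m)` both sides are `y (c.cj)` with `c = 1` and constant exponents (`tp e * 1 * tp e = 1`); in the
case `(y, m, m)` it is the identity `α^(e+e') β^(i+i') g = τ^{e i'} (α^e' β^i' α^e β^i g) τ^{e i'}` for
composable kinds (`α β = c_τ β α`, `α² = 1`); all other cases are trivial, by the table of `kc`. -/
def S_GA1 : Prop :=
  ∀ (S : Type) (σ : Equiv.Perm S) (ε : S → ZMod 2) (_ : ∀ s, ε (σ s) = ε s + 1)
    (m : SimplexCategoryᵒᵖ) (a b c : El (Bg m) S),
    ml σ a (ml σ b c) = gy (fun _ => lam σ ε a b c) (ml σ (ml σ a b) c)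

/-- **GA2** (the identity of the pentagon). The product `((ab)c)d` has the form `y` only for
`(z, u, m, m)` and `(y, m, m, m)` (composable). First case, with morphisms `(k, e)`, `(k', e')` and
`x'' = σ^(sh k') x'`: `(e + e') ε(x'') + e (sh k') = e' ε(x'') + e ε(x')`, as
`ε(x'') = ε(x') + sh k'`. Second case: `e₁ (sh k₂ + sh k₃) + e₂ (sh k₃) = (e₁ + e₂) (sh k₃) +
e₁ (sh k₂)`. -/
def S_GA2 : Prop :=
  ∀ (S : Type) (σ : Equiv.Perm S) (ε : S → ZMod 2) (_ : ∀ s, ε (σ s) = ε s + 1)
    (m : SimplexCategoryᵒᵖ) (a b c d : El (Bg m) S) (l : Bool) (q : Bg m) (s : S),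
    ml σ (ml σ (ml σ a b) c) d = .ix (.y l q) s →
      lam σ ε a b (ml σ c d) + lam σ ε (ml σ a b) c d = lam σ ε a (ml σ b c) d + lam σ ε a b c

/-- **GA3** (rules for `gy`). All by case distinction: `P` fixes `τ`; a product is never `z`;
`a · y = zero`; the last two say that everything is compatible with the simplicial operators. -/
def S_GA3 : Prop :=
  ∀ (S : Type) (σ : Equiv.Perm S) (ε : S → ZMod 2) (m : SimplexCategoryᵒᵖ),
    (∀ (h h' : Fin (m.unop.len + 1) → ZMod 2) (a : El (Bg m) S), gy h (gy h' a) = gy (h + h') a) ∧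
    (∀ a : El (Bg m) S, gy (fun _ => 0) a = a) ∧
    (∀ (h : Fin (m.unop.len + 1) → ZMod 2) (a b c : El (Bg m) S),
      ml σ (gy h (ml σ a b)) c = gy h (ml σ (ml σ a b) c)) ∧
    (∀ (h : Fin (m.unop.len + 1) → ZMod 2) (a b : El (Bg m) S), ml σ a (gy h b) = ml σ a b) ∧
    (∀ (m' : SimplexCategoryᵒᵖ) (f : m ⟶ m') (h : Fin (m.unop.len + 1) → ZMod 2) (a : El (Bg m) S),
      (gy h a).map (Bg.res f) = gy (fun i => h (f.unop.toOrderHom i)) (a.map (Bg.res f))) ∧
    (∀ (m' : SimplexCategoryᵒᵖ) (f : m ⟶ m') (a b c : El (Bg m) S),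
      lam σ ε (a.map (Bg.res f)) (b.map (Bg.res f)) (c.map (Bg.res f)) = lam σ ε a b c)

/-- **GA** (may assume `S_GA1`, `S_GA2`, `S_GA3`). For `x = (a, b, c)` and `t : [k] → [1]` let
`α (x, t) = gy (fun i => t_i λ(a,b,c)) ((ab)c)`, and for `x = (a, b, c, d)`, `t : [k] → [2]`, with
`w = ((ab)c)d`, let `T_j (x, t) = gy (fun i => H_j (t_i)) w` with
`H_1 = (0, λ(ab,c,d), λ(a,b,cd) + λ(ab,c,d))`, `H_2 = (0, λ(a,b,c), λ(a,bc,d) + λ(a,b,c))`,
`H_3 = (0, λ(a,bc,d) + λ(a,b,c), λ(a,bc,d) + λ(a,b,c))`. Faces: `t ≫ δ 2`, `δ 0`, `δ 1`. E.g. the face `0` of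
`T_1` is `gy (λ(ab,c,d) + t_i λ(a,b,cd)) w` and `(ab)(cd) = gy (λ(ab,c,d)) w` by GA1; the face `2` of
`T_2` is `gy (t_i λ(a,b,c)) w = (gy (t_i λ(a,b,c)) ((ab)c)) d` by GA3; the face `0` of `T_2`:
`(a(bc))d = (gy (λ(a,b,c)) ((ab)c)) d = gy (λ(a,b,c)) w`; the face `0` of `T_3`:
`a · gy(..)((bc)d) = a((bc)d) = gy (λ(a,bc,d)) ((a(bc))d)`; the faces `1` of `T_1` and of `T_3` agree by
GA2 (if `w` is not of the form `y`, `gy` does nothing). Use `mkH` (`L7h34/HS/Exi.lean`) for the homotopy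
and `S_GA3` for the naturality. -/
def S_GA : Prop :=
  ∀ (S : Type) (σ : Equiv.Perm S) (ε : S → ZMod 2), (∀ s, ε (σ s) = ε s + 1) → A4 (mm σ)

/-! ### From the pentagon to a colouring -/

/-- the label of an edge of `XX S` -/
def lb {S : Type} (x : (XX S).obj (op (SimplexCategory.mk 1))) : G :=
  match (x : El (Bg (op (SimplexCategory.mk 1))) S) with
  | .ix (.y _ c) _ => c.1 (0 : Fin 2) (1 : Fin 2)
  | _ => 1

/-- a constant simplex of `XX S` of dimension `m`: `y l * s` has all its edges equal to `1` -/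
def cn {S : Type} (m : SimplexCategoryᵒᵖ) (a : El Unit S) : (XX S).obj m :=
  (a.map (fun _ => Bg.one m) : El (Bg m) S)

/-- the label of the edge of the homotopy `h` at three constant simplices -/
def lbl {S : Type} (h : pw (XX S) 3 ⊗ Dl 1 ⟶ XX S) (a b c : El Unit S) : G :=
  lb (h.app (op (SimplexCategory.mk 1))
    ((fun i => cn _ (![a, b, c] i) : Fin 3 → (XX S).obj (op (SimplexCategory.mk 1))),
      SSet.stdSimplex.objEquiv.symm (𝟙 (SimplexCategory.mk 1))))

/-- the label `g` of the morphism `(k, e, s)`: the edge at `(z, u, d)` -/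
def gl {S : Type} (h : pw (XX S) 3 ⊗ Dl 1 ⟶ XX S) (k : Kd) (e : ZMod 2) (s : S) : G :=
  lbl h .z (.ix (.u (src k)) s) (.ix (.m k e) s)

/-- the label `t` of the composable morphisms `(k, e, s)`, `(k', e', s')`: the edge at `(y, d, d')` -/
def tl {S : Type} (h : pw (XX S) 3 ⊗ Dl 1 ⟶ XX S) (k : Kd) (e : ZMod 2) (s : S) (k' : Kd)
    (e' : ZMod 2) (s' : S) : G :=
  lbl h (.ix (.y (src k) ()) s) (.ix (.m k e) s) (.ix (.m k' e') s')

/-- **GB1** (the pentagon on labels). Evaluate `T1`, `T2`, `T3` of the definition of `A4` at the constant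
`2`-simplex `q = (z, u x, d, d')` and the identity of `[2]`; a `2`-simplex `w` of `XX S` satisfies
`lb (δ 2 w) * lb (δ 0 w) = lb (δ 1 w)` (if `w` is `y l c s` this is `c 0 1 * c 1 2 = c 0 2`). The faces
are the values of the `fc T i` at the constant `1`-simplex `q` and the identity of `[1]`:
`lb K1 = t_{d,d'}` (`z · u x = y x`), `lb K2 = g_{dd'}`, `lb K3 = P_{d'} (g_d)`: the value of `α` at
`(z, u x, d)` is `y x' c` with `c 0 1 = g_d` (its vertices are `y x'`, since `α` is a
homotopy), and it is multiplied by `d'`; `lb K4 = g_{d'}` (`u x · d = u x'`), `lb K5 = 1` (the value of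
`α` at `(u x, d, d')` is an edge at `u x''`, hence constant, and `z · u x'' = y x''` has label `1`). So
`t_{d,d'} * g_{dd'} = lb D = lb E * 1 = P_{d'} (g_d) * g_{d'}`. -/
def S_GB1 : Prop :=
  ∀ (S : Type) (σ : Equiv.Perm S), A4 (mm σ) → ∃ α : SSet.Homotopy
      (tm (mm σ) (.mul (.mul (.var 0) (.var 1)) (.var 2) : Term 3))
      (tm (mm σ) (.mul (.var 0) (.mul (.var 1) (.var 2)) : Term 3)),
    ∀ (k k' k'' : Kd) (e e' : ZMod 2) (s : S), kc k k' = some k'' →
      tl α.h k e s k' e' (sft σ (sh k) s) * gl α.h k'' (e + e') s =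
        pg k' e' (gl α.h k e s) * gl α.h k' e' (sft σ (sh k) s)

/-- **GB2** (naturality of `t`). Let `x₂` be the `2`-simplex of the classifying space with
`c 0 1 = g`, `c 1 2 = 1`, `c 0 2 = g`, and evaluate `α` at `((y l x₂ s, d, d'), (0, 0, 1))`: this is
`y l c s''` with `c 0 1 = P_{d'} P_d g` (left end of the homotopy), `c 1 2 = t`, so
`P_{d'} P_d g * t = c 0 2 =` the label of `α` at `((y l g s, d, d'), (0, 1))`. In the same way with
`c 0 1 = 1`, `c 1 2 = g`, `c 0 2 = g` and `(0, 1, 1)`: `t * P_{dd'} g = ` the same label. -/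
def S_GB2 : Prop :=
  ∀ (S : Type) (σ : Equiv.Perm S) (α : SSet.Homotopy
      (tm (mm σ) (.mul (.mul (.var 0) (.var 1)) (.var 2) : Term 3))
      (tm (mm σ) (.mul (.var 0) (.mul (.var 1) (.var 2)) : Term 3))),
    ∀ (k k' k'' : Kd) (e e' : ZMod 2) (s : S), kc k k' = some k'' → ∀ g : G,
      pg k' e' (pg k e g) * tl α.h k e s k' e' (sft σ (sh k) s) =
        tl α.h k e s k' e' (sft σ (sh k) s) * pg k'' (e + e') g

/-- **GB3** (the group of order 18: finite check, e.g. with `g = (1, 0, +)`, `(0, 1, +)`, `(0, 0, -)`,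
or `decide` after a `Fintype` instance). If `sh k' = true` and `e = 1`, then `k = ge`,
`P_{d'} P_d = c_τ ∘ P_{dd'}` and `t = τ`; else `P_{d'} P_d = P_{dd'}` and `t = 1`. -/
def S_GB3 : Prop :=
  (∀ (k k' k'' : Kd) (e e' : ZMod 2), kc k k' = some k'' → ∀ t : G,
    (∀ g : G, pg k' e' (pg k e g) * t = t * pg k'' (e + e') g) → sn t = if sh k' then e else 0) ∧
  (∀ g h : G, sn (g * h) = sn g + sn h) ∧ (∀ (k : Kd) (e : ZMod 2) (g : G), sn (pg k e g) = sn g)

/-- **GB** (may assume `S_GB1`, `S_GB2`, `S_GB3`). `ε s := sn (gl α.h gv 1 s)`. Take the signs in GB1 for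
`(ge, 1), (a_i, 0)` and for `(a_i, 0), (gv, 1)`. -/
def S_GB : Prop :=
  ∀ (S : Type) (σ : Equiv.Perm S), A4 (mm σ) → ∃ ε : S → ZMod 2, ∀ s, ε (σ s) = ε s + 1

/-- **COL**. `N = 0`: `ε (i, j) = i mod 2`. `N` odd: `σ ^ N = 1` and `ε (σ ^ N s) = ε s + N`. -/
def S_COL : Prop :=
  (∃ ε : ZMod 0 × ℕ → ZMod 2, ∀ s, ε (cyc 0 s) = ε s + 1) ∧
  ∀ N : ℕ, Odd N → ¬ ∃ ε : ZMod N × ℕ → ZMod 2, ∀ s, ε (cyc N s) = ε s + 1

end Pool.Agent.L7h34.PG
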