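import Pool.Agent.L7h34.PG.Stm
import Pool.Agent.L7h74.HS.Fin

/-! Project PG: assembly, with the statements of the parts as hypotheses -/

set_option autoImplicit false

namespace Pool.Agent.L7h34.PG

open CategoryTheory Opposite Limits MonoidalCategory
open Pool.Agent.L7h74.HS (pw pr prn cns D0 D0_conn pt0 hom_pw0)

theorem holds_iff (hKJ : S_KJ) (hE : S_EXI) (X : SSet.{0}) (μ : X ⊗ X ⟶ X) (φ : Form 0) :
    Holds μ φ ↔ Forces μ φ D0 (pt0 X D0) := by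
  constructor
  · rintro ⟨E, hI, hn⟩
    exact (hKJ X μ 0 φ E hI D0 D0_conn _).1 ((Pool.Agent.L7h74.HS.nonempty_iff E).1 hn)
  · intro h
    obtain ⟨E, hI⟩ := hE X μ 0 φ
    exact ⟨E, hI, (Pool.Agent.L7h74.HS.nonempty_iff E).2 ((hKJ X μ 0 φ E hI D0 D0_conn _).2 h)⟩

theorem main (hKJ : S_KJ) (hE : S_EXI) (hK : S_KAN) (hB : S_BIS) (hGA : S_GA) (hGB : S_GB)
    (hC : S_COL) :
    ¬ ∃ φ : Form 0, ∀ (X : SSet.{0}) [SSet.KanComplex X] (μ : X ⊗ X ⟶ X), Holds μ φ ↔ A4 μ := by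
  rintro ⟨φ, hφ⟩
  have i0 : SSet.KanComplex (XX (ZMod 0 × ℕ)) := hK _
  have i1 : SSet.KanComplex (XX (ZMod (2 * rk φ + 1) × ℕ)) := hK _
  obtain ⟨ε, hε⟩ := hC.1
  have h0 : A4 (mm (cyc 0)) := hGA _ _ ε hε
  have h1 : Holds (mm (cyc 0)) φ := (hφ _ _).2 h0
  rw [holds_iff hKJ hE] at h1
  have h2 : Forces (mm (cyc (2 * rk φ + 1))) φ D0 (pt0 _ D0) :=
    hB 0 φ 0 (2 * rk φ + 1) (Or.inl rfl) (Or.inr (by omega)) D0 D0_conn _ _
      (fun i => i.elim0) (fun i => i.elim0)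
      ⟨fun i => i.elim0, fun i => i.elim0, fun i => i.elim0⟩ h1
  rw [← holds_iff hKJ hE] at h2
  have h3 : A4 (mm (cyc (2 * rk φ + 1))) := (hφ _ _).1 h2
  exact hC.2 (2 * rk φ + 1) ⟨rk φ, rfl⟩ (hGB _ _ h3)

end Pool.Agent.L7h34.PG
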