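import Pool.Agent.L7h34.PG.Stm

/-! Project PG, part GA: from a colouring to the pentagon -/

set_option autoImplicit false

namespace Pool.Agent.L7h34.PG

open CategoryTheory Opposite Limits MonoidalCategory
open Pool.Agent.L7h74.HS (pw pr prn cns)

/-- the vertices of a simplex of the standard simplex -/
def vx {k : ℕ} {m : SimplexCategoryᵒᵖ} (t : (Dl k).obj m) (i : Fin (m.unop.len + 1)) :
    Fin (k + 1) :=
  (SSet.stdSimplex.objEquiv t).toOrderHom i

theorem vx_map {k : ℕ} {m m' : SimplexCategoryᵒᵖ} (f : m ⟶ m') (t : (Dl k).obj m)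
    (i : Fin (m'.unop.len + 1)) : vx ((Dl k).map f t) i = vx t (f.unop.toOrderHom i) := rfl

theorem vx_d {m : SimplexCategoryᵒᵖ} (j : Fin 3) (t : (Dl 1).obj m) (i : Fin (m.unop.len + 1)) :
    vx ((SSet.stdSimplex.map (SimplexCategory.δ j)).app m t) i = j.succAbove (vx t i) := rfl

/-- the map of a cylinder given by a map `w` and exponents `H` -/
def gm {S : Type} {n k : ℕ} (w : pw (XX S) n ⟶ XX S)
    (H : ∀ m : SimplexCategoryᵒᵖ, (pw (XX S) n).obj m → Fin (k + 1) → ZMod 2)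
    (hH : ∀ (m m' : SimplexCategoryᵒᵖ) (f : m ⟶ m') (x : (pw (XX S) n).obj m),
      H m' ((pw (XX S) n).map f x) = H m x)
    (h3 : ∀ (m m' : SimplexCategoryᵒᵖ) (f : m ⟶ m') (h : Fin (m.unop.len + 1) → ZMod 2)
      (a : El (Bg m) S),
      (gy h a).map (Bg.res f) = gy (fun i => h (f.unop.toOrderHom i)) (a.map (Bg.res f))) :
    pw (XX S) n ⊗ Dl k ⟶ XX S where
  app m := ↾ fun p => gy (fun i => H m p.1 (vx p.2 i)) (w.app m p.1)
  naturality m m' f := by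
    ext p
    refine Eq.trans ?_ (h3 m m' f (fun i => H m p.1 (vx p.2 i)) (w.app m p.1)).symm
    have h4 : w.app m' ((pw (XX S) n).map f p.1) = (XX S).map f (w.app m p.1) :=
      ConcreteCategory.congr_hom (w.naturality f) p.1
    have h5 : (fun i => H m' ((pw (XX S) n).map f p.1) (vx ((Dl k).map f p.2) i)) =
        fun i => H m p.1 (vx p.2 (f.unop.toOrderHom i)) := by
      funext i
      exact congrFun (hH m m' f p.1) _
    exact congrArg₂ (fun (h : Fin (m'.unop.len + 1) → ZMod 2) (a : El (Bg m') S) => gy h a) h5 h4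

theorem gy_dich {S : Type} {m : SimplexCategoryᵒᵖ} (w : El (Bg m) S) :
    (∃ l q s, w = .ix (.y l q) s) ∨
      ∀ h h' : Fin (m.unop.len + 1) → ZMod 2, gy h w = gy h' w := by
  rcases w with _ | _ | ⟨(_ | ⟨l, q⟩ | _), s⟩
  · exact Or.inr fun _ _ => rfl
  · exact Or.inr fun _ _ => rfl
  · exact Or.inr fun _ _ => rfl
  · exact Or.inl ⟨l, q, s, rfl⟩
  · exact Or.inr fun _ _ => rfl

theorem ml_map {S : Type} (σ : Equiv.Perm S) {m m' : SimplexCategoryᵒᵖ} (f : m ⟶ m')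
    (a b : El (Bg m) S) :
    ml σ (a.map (Bg.res f)) (b.map (Bg.res f)) = (ml σ a b).map (Bg.res f) := mul_map σ f a b

section El

variable {S : Type} {σ : Equiv.Perm S} {ε : S → ZMod 2} {m : SimplexCategoryᵒᵖ}

theorem e_sum (h h' h'' : Fin (m.unop.len + 1) → ZMod 2)
    (a1 : ∀ (h h' : Fin (m.unop.len + 1) → ZMod 2) (a : El (Bg m) S),
      gy h (gy h' a) = gy (h + h') a) (a : El (Bg m) S) (e : ∀ i, h'' i = h i + h' i) :
    gy h'' a = gy h (gy h' a) := by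
  rw [a1]
  congr 1
  funext i
  exact e i

theorem e_K2 (a1 : ∀ (h h' : Fin (m.unop.len + 1) → ZMod 2) (a : El (Bg m) S),
      gy h (gy h' a) = gy (h + h') a)
    (g1 : ∀ a b c : El (Bg m) S, ml σ a (ml σ b c) = gy (fun _ => lam σ ε a b c) (ml σ (ml σ a b) c))
    (a b c d : El (Bg m) S) (v : Fin (m.unop.len + 1) → Fin 2) :
    gy (fun i => (![0, lam σ ε (ml σ a b) c d,
      lam σ ε a b (ml σ c d) + lam σ ε (ml σ a b) c d] : Fin 3 → ZMod 2)
        ((0 : Fin 3).succAbove (v i))) (ml σ (ml σ (ml σ a b) c) d) =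
      gy (fun i => if v i = 0 then 0 else lam σ ε a b (ml σ c d)) (ml σ (ml σ a b) (ml σ c d)) := by
  rw [g1 (ml σ a b) c d]
  refine e_sum _ _ _ a1 _ fun i => ?_
  generalize v i = j
  fin_cases j
  · exact (zero_add _).symm
  · rfl

theorem e_K4 (a1 : ∀ (h h' : Fin (m.unop.len + 1) → ZMod 2) (a : El (Bg m) S),
      gy h (gy h' a) = gy (h + h') a)
    (a3 : ∀ (h : Fin (m.unop.len + 1) → ZMod 2) (a b c : El (Bg m) S),
      ml σ (gy h (ml σ a b)) c = gy h (ml σ (ml σ a b) c))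
    (g1 : ∀ a b c : El (Bg m) S, ml σ a (ml σ b c) = gy (fun _ => lam σ ε a b c) (ml σ (ml σ a b) c))
    (a b c d : El (Bg m) S) (v : Fin (m.unop.len + 1) → Fin 2) :
    gy (fun i => (![0, lam σ ε a b c,
      lam σ ε a (ml σ b c) d + lam σ ε a b c] : Fin 3 → ZMod 2)
        ((0 : Fin 3).succAbove (v i))) (ml σ (ml σ (ml σ a b) c) d) =
      gy (fun i => if v i = 0 then 0 else lam σ ε a (ml σ b c) d)
        (ml σ (ml σ a (ml σ b c)) d) := by
  rw [g1 a b c, a3]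
  refine e_sum _ _ _ a1 _ fun i => ?_
  generalize v i = j
  fin_cases j
  · exact (zero_add _).symm
  · rfl

theorem e_K3 (a3 : ∀ (h : Fin (m.unop.len + 1) → ZMod 2) (a b c : El (Bg m) S),
      ml σ (gy h (ml σ a b)) c = gy h (ml σ (ml σ a b) c))
    (a b c d : El (Bg m) S) (v : Fin (m.unop.len + 1) → Fin 2) :
    gy (fun i => (![0, lam σ ε a b c,
      lam σ ε a (ml σ b c) d + lam σ ε a b c] : Fin 3 → ZMod 2)
        ((2 : Fin 3).succAbove (v i))) (ml σ (ml σ (ml σ a b) c) d) =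
      ml σ (gy (fun i => if v i = 0 then 0 else lam σ ε a b c) (ml σ (ml σ a b) c)) d := by
  rw [a3]
  congr 1
  funext i
  generalize v i = j
  fin_cases j <;> rfl

theorem e_K5 (a1 : ∀ (h h' : Fin (m.unop.len + 1) → ZMod 2) (a : El (Bg m) S),
      gy h (gy h' a) = gy (h + h') a)
    (a3 : ∀ (h : Fin (m.unop.len + 1) → ZMod 2) (a b c : El (Bg m) S),
      ml σ (gy h (ml σ a b)) c = gy h (ml σ (ml σ a b) c))
    (a4 : ∀ (h : Fin (m.unop.len + 1) → ZMod 2) (a b : El (Bg m) S), ml σ a (gy h b) = ml σ a b)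
    (g1 : ∀ a b c : El (Bg m) S, ml σ a (ml σ b c) = gy (fun _ => lam σ ε a b c) (ml σ (ml σ a b) c))
    (a b c d : El (Bg m) S) (v : Fin (m.unop.len + 1) → Fin 2) :
    gy (fun i => (![0, lam σ ε a (ml σ b c) d + lam σ ε a b c,
      lam σ ε a (ml σ b c) d + lam σ ε a b c] : Fin 3 → ZMod 2)
        ((0 : Fin 3).succAbove (v i))) (ml σ (ml σ (ml σ a b) c) d) =
      ml σ a (gy (fun i => if v i = 0 then 0 else lam σ ε b c d) (ml σ (ml σ b c) d)) := by
  rw [a4, g1 a (ml σ b c) d, g1 a b c, a3]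
  refine e_sum _ _ _ a1 _ fun i => ?_
  generalize v i = j
  fin_cases j <;> rfl

theorem e_D (a b c d : El (Bg m) S)
    (g2 : ∀ (l : Bool) (q : Bg m) (s : S), ml σ (ml σ (ml σ a b) c) d = .ix (.y l q) s →
      lam σ ε a b (ml σ c d) + lam σ ε (ml σ a b) c d =
        lam σ ε a (ml σ b c) d + lam σ ε a b c)
    (v : Fin (m.unop.len + 1) → Fin 2) :
    gy (fun i => (![0, lam σ ε a (ml σ b c) d + lam σ ε a b c,
      lam σ ε a (ml σ b c) d + lam σ ε a b c] : Fin 3 → ZMod 2)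
        ((1 : Fin 3).succAbove (v i))) (ml σ (ml σ (ml σ a b) c) d) =
      gy (fun i => (![0, lam σ ε a b (ml σ c d) + lam σ ε (ml σ a b) c d] : Fin 2 → ZMod 2) (v i))
        (ml σ (ml σ (ml σ a b) c) d) := by
  rcases gy_dich (ml σ (ml σ (ml σ a b) c) d) with ⟨l, q, s, hq⟩ | hn
  · rw [g2 l q s hq]
    congr 1
    funext i
    generalize v i = j
    fin_cases j <;> rfl
  · exact hn _ _

end El

theorem s_GA : S_GA1 → S_GA2 → S_GA3 → S_GA := by
  intro G1 G2 G3 S σ ε hε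
  have g1 := G1 S σ ε hε
  have g2 := G2 S σ ε hε
  have a1 := fun m => (G3 S σ ε m).1
  have a2 := fun m => (G3 S σ ε m).2.1
  have a3 := fun m => (G3 S σ ε m).2.2.1
  have a4 := fun m => (G3 S σ ε m).2.2.2.1
  have a5 := fun m => (G3 S σ ε m).2.2.2.2.1
  have a6 := fun m => (G3 S σ ε m).2.2.2.2.2
  -- the homotopy
  let wα : pw (XX S) 3 ⟶ XX S := tm (mm σ) (.mul (.mul (.var 0) (.var 1)) (.var 2) : Term 3)
  let L : ∀ m : SimplexCategoryᵒᵖ, (pw (XX S) 3).obj m → ZMod 2 :=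
    fun m x => lam σ ε (x 0 : El (Bg m) S) (x 1 : El (Bg m) S) (x 2 : El (Bg m) S)
  let Hα : ∀ m : SimplexCategoryᵒᵖ, (pw (XX S) 3).obj m → Fin 2 → ZMod 2 :=
    fun m x j => if j = 0 then 0 else L m x
  have hL : ∀ (m m' : SimplexCategoryᵒᵖ) (f : m ⟶ m') (x : (pw (XX S) 3).obj m),
      L m' ((pw (XX S) 3).map f x) = L m x := fun m m' f x => a6 m m' f (x 0) (x 1) (x 2)
  have hα : ∀ (m m' : SimplexCategoryᵒᵖ) (f : m ⟶ m') (x : (pw (XX S) 3).obj m),
      Hα m' ((pw (XX S) 3).map f x) = Hα m x := by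
    intro m m' f x
    funext j
    change (if j = 0 then 0 else L m' ((pw (XX S) 3).map f x)) = if j = 0 then 0 else L m x
    rw [hL]
  let α := L7h34.HS.mkH (gm wα Hα hα a5)
    (f := tm (mm σ) (.mul (.mul (.var 0) (.var 1)) (.var 2) : Term 3))
    (g := tm (mm σ) (.mul (.var 0) (.mul (.var 1) (.var 2)) : Term 3))
    (by
      ext m x
      exact a2 m (wα.app m x))
    (by
      ext m x
      exact (g1 m (x 0) (x 1) (x 2)).symm)
  let w : pw (XX S) 4 ⟶ XX S :=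
    tm (mm σ) (.mul (.mul (.mul (.var 0) (.var 1)) (.var 2)) (.var 3) : Term 4)
  -- the four exponents
  let E1 : ∀ m : SimplexCategoryᵒᵖ, (pw (XX S) 4).obj m → ZMod 2 :=
    fun m x => lam σ ε (ml σ (x 0 : El (Bg m) S) (x 1 : El (Bg m) S)) (x 2 : El (Bg m) S)
      (x 3 : El (Bg m) S)
  let E2 : ∀ m : SimplexCategoryᵒᵖ, (pw (XX S) 4).obj m → ZMod 2 :=
    fun m x => lam σ ε (x 0 : El (Bg m) S) (x 1 : El (Bg m) S) (ml σ (x 2 : El (Bg m) S)
      (x 3 : El (Bg m) S))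
  let E3 : ∀ m : SimplexCategoryᵒᵖ, (pw (XX S) 4).obj m → ZMod 2 :=
    fun m x => lam σ ε (x 0 : El (Bg m) S) (x 1 : El (Bg m) S) (x 2 : El (Bg m) S)
  let E4 : ∀ m : SimplexCategoryᵒᵖ, (pw (XX S) 4).obj m → ZMod 2 :=
    fun m x => lam σ ε (x 0 : El (Bg m) S) (ml σ (x 1 : El (Bg m) S) (x 2 : El (Bg m) S))
      (x 3 : El (Bg m) S)
  have n1 : ∀ (m m' : SimplexCategoryᵒᵖ) (f : m ⟶ m') (x : (pw (XX S) 4).obj m),
      E1 m' ((pw (XX S) 4).map f x) = E1 m x := by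
    intro m m' f x
    refine Eq.trans ?_ (a6 m m' f (ml σ (x 0) (x 1)) (x 2) (x 3))
    exact congrArg (fun q => lam σ ε q ((x 2 : El (Bg m) S).map (Bg.res f))
      ((x 3 : El (Bg m) S).map (Bg.res f))) (ml_map σ f (x 0) (x 1))
  have n2 : ∀ (m m' : SimplexCategoryᵒᵖ) (f : m ⟶ m') (x : (pw (XX S) 4).obj m),
      E2 m' ((pw (XX S) 4).map f x) = E2 m x := by
    intro m m' f x
    refine Eq.trans ?_ (a6 m m' f (x 0) (x 1) (ml σ (x 2) (x 3)))
    exact congrArg (fun q => lam σ ε ((x 0 : El (Bg m) S).map (Bg.res f))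
      ((x 1 : El (Bg m) S).map (Bg.res f)) q) (ml_map σ f (x 2) (x 3))
  have n3 : ∀ (m m' : SimplexCategoryᵒᵖ) (f : m ⟶ m') (x : (pw (XX S) 4).obj m),
      E3 m' ((pw (XX S) 4).map f x) = E3 m x := by
    intro m m' f x
    exact a6 m m' f (x 0) (x 1) (x 2)
  have n4 : ∀ (m m' : SimplexCategoryᵒᵖ) (f : m ⟶ m') (x : (pw (XX S) 4).obj m),
      E4 m' ((pw (XX S) 4).map f x) = E4 m x := by
    intro m m' f x
    refine Eq.trans ?_ (a6 m m' f (x 0) (ml σ (x 1) (x 2)) (x 3))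
    exact congrArg (fun q => lam σ ε ((x 0 : El (Bg m) S).map (Bg.res f)) q
      ((x 3 : El (Bg m) S).map (Bg.res f))) (ml_map σ f (x 1) (x 2))
  let HD : ∀ m : SimplexCategoryᵒᵖ, (pw (XX S) 4).obj m → Fin 2 → ZMod 2 :=
    fun m x => ![0, E2 m x + E1 m x]
  let HE : ∀ m : SimplexCategoryᵒᵖ, (pw (XX S) 4).obj m → Fin 2 → ZMod 2 :=
    fun m x => ![0, E4 m x + E3 m x]
  let H1 : ∀ m : SimplexCategoryᵒᵖ, (pw (XX S) 4).obj m → Fin 3 → ZMod 2 :=
    fun m x => ![0, E1 m x, E2 m x + E1 m x]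
  let H2 : ∀ m : SimplexCategoryᵒᵖ, (pw (XX S) 4).obj m → Fin 3 → ZMod 2 :=
    fun m x => ![0, E3 m x, E4 m x + E3 m x]
  let H3 : ∀ m : SimplexCategoryᵒᵖ, (pw (XX S) 4).obj m → Fin 3 → ZMod 2 :=
    fun m x => ![0, E4 m x + E3 m x, E4 m x + E3 m x]
  have nD : ∀ (m m' : SimplexCategoryᵒᵖ) (f : m ⟶ m') (x : (pw (XX S) 4).obj m),
      HD m' ((pw (XX S) 4).map f x) = HD m x := by
    intro m m' f x
    simp only [HD, n1, n2]
  have nE : ∀ (m m' : SimplexCategoryᵒᵖ) (f : m ⟶ m') (x : (pw (XX S) 4).obj m),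
      HE m' ((pw (XX S) 4).map f x) = HE m x := by
    intro m m' f x
    simp only [HE, n3, n4]
  have nH1 : ∀ (m m' : SimplexCategoryᵒᵖ) (f : m ⟶ m') (x : (pw (XX S) 4).obj m),
      H1 m' ((pw (XX S) 4).map f x) = H1 m x := by
    intro m m' f x
    simp only [H1, n1, n2]
  have nH2 : ∀ (m m' : SimplexCategoryᵒᵖ) (f : m ⟶ m') (x : (pw (XX S) 4).obj m),
      H2 m' ((pw (XX S) 4).map f x) = H2 m x := by
    intro m m' f x
    simp only [H2, n3, n4]
  have nH3 : ∀ (m m' : SimplexCategoryᵒᵖ) (f : m ⟶ m') (x : (pw (XX S) 4).obj m),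
      H3 m' ((pw (XX S) 4).map f x) = H3 m x := by
    intro m m' f x
    simp only [H3, n3, n4]
  refine ⟨α, gm w HD nD a5, gm w HE nE a5, gm w H1 nH1 a5, gm w H2 nH2 a5, gm w H3 nH3 a5,
    ?_, ?_, ?_, ?_, ?_, ?_, ?_, ?_, ?_⟩
  · ext m ⟨x, t⟩
    change gy (fun i => H1 m x ((2 : Fin 3).succAbove (vx t i))) (w.app m x) =
      gy (fun i => if vx t i = 0 then 0 else E1 m x) (w.app m x)
    congr 1
    funext i
    generalize vx t i = j
    fin_cases j <;> rfl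
  · ext m ⟨x, t⟩
    exact e_K2 (a1 m) (g1 m) (x 0) (x 1) (x 2) (x 3) (fun i => vx t i)
  · ext m ⟨x, t⟩
    change gy (fun i => H1 m x ((1 : Fin 3).succAbove (vx t i))) (w.app m x) =
      gy (fun i => HD m x (vx t i)) (w.app m x)
    congr 1
    funext i
    generalize vx t i = j
    fin_cases j <;> rfl
  · ext m ⟨x, t⟩
    exact e_K3 (a3 m) (x 0) (x 1) (x 2) (x 3) (fun i => vx t i)
  · ext m ⟨x, t⟩
    exact e_K4 (a1 m) (a3 m) (g1 m) (x 0) (x 1) (x 2) (x 3) (fun i => vx t i)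
  · ext m ⟨x, t⟩
    change gy (fun i => H2 m x ((1 : Fin 3).succAbove (vx t i))) (w.app m x) =
      gy (fun i => HE m x (vx t i)) (w.app m x)
    congr 1
    funext i
    generalize vx t i = j
    fin_cases j <;> rfl
  · ext m ⟨x, t⟩
    change gy (fun i => H3 m x ((2 : Fin 3).succAbove (vx t i))) (w.app m x) =
      gy (fun i => HE m x (vx t i)) (w.app m x)
    congr 1
    funext i
    generalize vx t i = j
    fin_cases j <;> rfl
  · ext m ⟨x, t⟩
    exact e_K5 (a1 m) (a3 m) (a4 m) (g1 m) (x 0) (x 1) (x 2) (x 3) (fun i => vx t i)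
  · ext m ⟨x, t⟩
    exact e_D (x 0) (x 1) (x 2) (x 3) (g2 m (x 0) (x 1) (x 2) (x 3)) (fun i => vx t i)

end Pool.Agent.L7h34.PG
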