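import Pool.Agent.L7h34.PG.Sem
import Pool.Agent.L7h34.PG.Asm
import Pool.Agent.L7h75.HS.Uni
import Pool.Agent.L7h34.PG.Ga
import Pool.Agent.L7h15.PG.Kan
import Pool.Agent.L7h15.PG.Kj
import Pool.Agent.L7h15.PG.Exi
import Pool.Agent.L7h38.PG.Bis
import Pool.Agent.L7h38.PG.Mul
import Pool.Agent.L7h38.PG.Shp
import Pool.Agent.L7h78.PG.Ga1
import Pool.Agent.L7h78.PG.Ga2
import Pool.Agent.L7h78.PG.Ga3
import Pool.Agent.L7h2.PG.Col
import Pool.Agent.L7h2.PG.Ext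
import Pool.Agent.L7h89.PG.Gb1
import Pool.Agent.L7h89.PG.Gb2
import Pool.Agent.L7h89.PG.Gb3

/-! Project PG: uniqueness of the interpretation, and the final assembly -/

set_option autoImplicit false

namespace Pool.Agent.L7h34.PG

open CategoryTheory Opposite Limits MonoidalCategory
open Pool.Agent.L7h74.HS (pw pr prn cns IsPaths IsProd IsSum IsExp IsPi IsSigma)
open Pool.Agent.L7h75.HS (PP imp_half)

theorem afour_iff {X : SSet.{0}} (μ : X ⊗ X ⟶ X) : AFour μ ↔ A4 μ := by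
  constructor
  · rintro ⟨h, ⟨a0, a1⟩, D, E, T1, T2, T3, ⟨h1, h2, h3⟩, ⟨h4, h5, h6⟩, h7, h8, h9⟩
    exact ⟨L7h34.HS.mkH h a0 a1, D, E, T1, T2, T3, h1, h2, h3, h4, h5, h6, h7, h8, h9⟩
  · rintro ⟨α, D, E, T1, T2, T3, h1, h2, h3, h4, h5, h6, h7, h8, h9⟩
    exact ⟨α.h, ⟨α.h₀, α.h₁⟩, D, E, T1, T2, T3, ⟨h1, h2, h3⟩, ⟨h4, h5, h6⟩, h7, h8, h9⟩

/-- the interpretation is unique up to isomorphism -/
theorem uni {X : SSet.{0}} (μ : X ⊗ X ⟶ X) {n : ℕ} (φ : Form n) :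
    ∀ E E' : Over (pw X n), IsInterp μ φ E → IsInterp μ φ E' → Nonempty (E ≅ E') := by
  induction φ with
  | top =>
    intro E E' hE hE'
    obtain ⟨h⟩ := hE
    obtain ⟨h'⟩ := hE'
    exact ⟨h.uniqueUpToIso h'⟩
  | bot =>
    intro E E' hE hE'
    obtain ⟨h⟩ := hE
    obtain ⟨h'⟩ := hE'
    exact ⟨h.uniqueUpToIso h'⟩
  | eq s t =>
    intro E E' hE hE'
    obtain ⟨H, hH⟩ := hE
    obtain ⟨H', hH'⟩ := hE'
    obtain ⟨f, hf, -⟩ := hH' E H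
    obtain ⟨g, hg, -⟩ := hH E' H'
    have key : ∀ {E : Over (pw X _)} (H : SSet.Homotopy (E.hom ≫ tm μ s) (E.hom ≫ tm μ t)),
        ((𝟙 E : E ⟶ E).left ▷ (SSet.stdSimplex.obj (SimplexCategory.mk 1) : SSet.{0})) ≫ H.h = H.h := by
      intro E H
      change (𝟙 E.left) ▷ _ ≫ H.h = H.h
      rw [id_whiskerRight, Category.id_comp]
    refine ⟨⟨f, g, ?_, ?_⟩⟩
    · obtain ⟨k, -, hk⟩ := hH E H
      refine (hk (f ≫ g) ?_).trans (hk (𝟙 E) (key H)).symm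
      change ((f.left ≫ g.left) ▷ _) ≫ H.h = H.h
      rw [comp_whiskerRight, Category.assoc, hg, hf]
    · obtain ⟨k, -, hk⟩ := hH' E' H'
      refine (hk (g ≫ f) ?_).trans (hk (𝟙 E') (key H')).symm
      change ((g.left ≫ f.left) ▷ _) ≫ H'.h = H'.h
      rw [comp_whiskerRight, Category.assoc, hf, hg]
  | and φ ψ ih1 ih2 =>
    intro E E' hE hE'
    obtain ⟨A, B, hA, hB, a, b, ⟨hl⟩⟩ := hE
    obtain ⟨A', B', hA', hB', a', b', ⟨hl'⟩⟩ := hE'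
    obtain ⟨i⟩ := ih1 A A' hA hA'
    obtain ⟨j⟩ := ih2 B B' hB hB'
    exact ⟨IsLimit.conePointsIsoOfNatIso hl hl' (mapPairIso i j)⟩
  | or φ ψ ih1 ih2 =>
    intro E E' hE hE'
    obtain ⟨A, B, hA, hB, a, b, ⟨hl⟩⟩ := hE
    obtain ⟨A', B', hA', hB', a', b', ⟨hl'⟩⟩ := hE'
    obtain ⟨i⟩ := ih1 A A' hA hA'
    obtain ⟨j⟩ := ih2 B B' hB hB'
    exact ⟨IsColimit.coconePointsIsoOfNatIso hl hl' (mapPairIso i j)⟩
  | imp φ ψ ih1 ih2 =>
    intro E E' hE hE'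
    obtain ⟨A, B, hA, hB, ev, hev⟩ := hE
    obtain ⟨A', B', hA', hB', ev', hev'⟩ := hE'
    obtain ⟨i⟩ := ih1 A A' hA hA'
    obtain ⟨l⟩ := ih2 B B' hB hB'
    obtain ⟨f, hf, -⟩ := hev' E (PP i.inv E ≫ ev ≫ l.hom)
    obtain ⟨g, hg, -⟩ := hev E' (PP i.hom E' ≫ ev' ≫ l.inv)
    exact ⟨⟨f, g, imp_half i l ev ev' hev f g hf hg,
      imp_half i.symm l.symm ev' ev hev' g f hg hf⟩⟩
  | @all n φ ih =>
    intro E E' hE hE'
    obtain ⟨A, hA, ev, hev⟩ := hE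
    obtain ⟨A', hA', ev', hev'⟩ := hE'
    obtain ⟨i⟩ := ih A A' hA hA'
    obtain ⟨f, hf, -⟩ := hev' E (ev ≫ i.hom)
    obtain ⟨g, hg, -⟩ := hev E' (ev' ≫ i.inv)
    refine ⟨⟨f, g, ?_, ?_⟩⟩
    · obtain ⟨k, -, hk⟩ := hev E ev
      refine (hk (f ≫ g) ?_).trans (hk (𝟙 E) ?_).symm
      · beta_reduce
        rw [Functor.map_comp, Category.assoc, hg, ← Category.assoc, hf, Category.assoc, i.hom_inv_id,
          Category.comp_id]
      · beta_reduce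
        rw [CategoryTheory.Functor.map_id, Category.id_comp]
    · obtain ⟨k, -, hk⟩ := hev' E' ev'
      refine (hk (g ≫ f) ?_).trans (hk (𝟙 E') ?_).symm
      · beta_reduce
        rw [Functor.map_comp, Category.assoc, hf, ← Category.assoc, hg, Category.assoc, i.inv_hom_id,
          Category.comp_id]
      · beta_reduce
        rw [CategoryTheory.Functor.map_id, Category.id_comp]
  | @ex n φ ih =>
    intro E E' hE hE'
    obtain ⟨A, hA, ⟨iso⟩⟩ := hE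
    obtain ⟨A', hA', ⟨iso'⟩⟩ := hE'
    obtain ⟨i⟩ := ih A A' hA hA'
    exact ⟨iso ≪≫ (Over.map (prn X n)).mapIso i ≪≫ iso'.symm⟩

theorem interp_iff {X : SSet.{0}} (μ : X ⊗ X ⟶ X) {n : ℕ} (φ : Form n) :
    ∀ E : Over (pw X n), Interp μ φ E ↔ IsInterp μ φ E := by
  induction φ with
  | top => exact fun E => Iff.rfl
  | bot => exact fun E => Iff.rfl
  | eq s t => exact fun E => Iff.rfl
  | and φ ψ h1 h2 =>
    intro E
    change (∃ A A', Interp μ φ A ∧ Interp μ ψ A' ∧ IsProd A A' E) ↔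
      ∃ A A', IsInterp μ φ A ∧ IsInterp μ ψ A' ∧ IsProd A A' E
    simp only [h1, h2]
  | or φ ψ h1 h2 =>
    intro E
    change (∃ A A', Interp μ φ A ∧ Interp μ ψ A' ∧ IsSum A A' E) ↔
      ∃ A A', IsInterp μ φ A ∧ IsInterp μ ψ A' ∧ IsSum A A' E
    simp only [h1, h2]
  | imp φ ψ h1 h2 =>
    intro E
    change (∃ A A', Interp μ φ A ∧ Interp μ ψ A' ∧ IsExp A A' E) ↔
      ∃ A A', IsInterp μ φ A ∧ IsInterp μ ψ A' ∧ IsExp A A' E
    simp only [h1, h2]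
  | @all n φ h =>
    intro E
    change (∃ A, Interp μ φ A ∧ IsPi (prn X n) A E) ↔ ∃ A, IsInterp μ φ A ∧ IsPi (prn X n) A E
    simp only [h]
  | @ex n φ h =>
    intro E
    change (∃ A, Interp μ φ A ∧ IsSigma (prn X n) A E) ↔
      ∃ A, IsInterp μ φ A ∧ IsSigma (prn X n) A E
    simp only [h]

theorem trueIn_iff {X : SSet.{0}} (μ : X ⊗ X ⟶ X) (φ : Form 0) : TrueIn μ φ ↔ Holds μ φ := by
  unfold TrueIn Holds
  simp only [interp_iff]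

/-- existence and uniqueness of the interpretation -/
theorem interp {X : SSet.{0}} (μ : X ⊗ X ⟶ X) (n : ℕ) (φ : Form n) :
    ∃ E : Over (pw X n), Interp μ φ E ∧
      ∀ E' : Over (pw X n), Interp μ φ E' → Nonempty (E ≅ E') := by
  obtain ⟨E, hE⟩ := Pool.Agent.L7h15.PG.s_EXI X μ n φ
  exact ⟨E, (interp_iff μ φ E).2 hE, fun E' hE' =>
    uni μ φ E E' hE ((interp_iff μ φ E').1 hE')⟩

theorem final : ¬ ∃ φ : Form 0, ∀ (X : SSet.{0}) [SSet.KanComplex X] (μ : X ⊗ X ⟶ X),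
    TrueIn μ φ ↔ AFour μ := by
  simp only [trueIn_iff, afour_iff]
  have hC : S_CON := Pool.Agent.L7h38.PG.s_CON
  have hT : S_TERM := Pool.Agent.L7h38.PG.s_TERM (Pool.Agent.L7h38.PG.s_MUL hC)
  have hB : S_BIS := Pool.Agent.L7h38.PG.s_BIS hC hT (Pool.Agent.L7h38.PG.s_HOM hC)
    Pool.Agent.L7h2.PG.s_EXT
  exact main Pool.Agent.L7h15.PG.s_KJ Pool.Agent.L7h15.PG.s_EXI Pool.Agent.L7h15.PG.s_KAN hB
    (s_GA Pool.Agent.L7h78.PG.s_GA1 Pool.Agent.L7h78.PG.s_GA2 Pool.Agent.L7h78.PG.s_GA3)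
    (Pool.Agent.L7h89.PG.s_GB Pool.Agent.L7h89.PG.s_GB1 Pool.Agent.L7h89.PG.s_GB2
      Pool.Agent.L7h89.PG.s_GB3)
    Pool.Agent.L7h2.PG.s_COL

end Pool.Agent.L7h34.PG
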