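import Pool.Agent.L7h75.HS.Bas
import Pool.Agent.L7h34.HS.Exi

/-!
# Homotopical semantics of first-order formulas over one sort and one binary function symbol

`Form n` : the formulas over the signature with one sort and one binary function symbol, with free
variables among `n` variables. `IsInterp μ φ E` : the simplicial set `E` over `X ^ n` is an
interpretation of the formula `φ` when the sort is interpreted by `X` and the function symbol by `μ`.
`A4 μ` : the pentagon condition. The definitions of the powers `pw X n`, the projections `pr X i`,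
`prn X n` and the tupling `cns a b` are those of `Pool.Agent.L7h74.HS.Defs`.
-/

set_option autoImplicit false

namespace Pool.Agent.L7h34.PG

open CategoryTheory Opposite Limits MonoidalCategory
open Pool.Agent.L7h74.HS (pw pr prn cns)

/-- The terms in the variables `x_0, ..., x_{n-1}` over one binary function symbol. -/
inductive Term (n : ℕ) : Type
  | var (i : Fin n) : Term n
  | mul (s t : Term n) : Term n

/-- The formulas with free variables among `x_0, ..., x_{n-1}`, over the signature with one sort and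
one binary function symbol. A quantifier binds the last variable. -/
inductive Form : ℕ → Type
  | top {n : ℕ} : Form n
  | bot {n : ℕ} : Form n
  | eq {n : ℕ} (s t : Term n) : Form n
  | and {n : ℕ} (φ ψ : Form n) : Form n
  | or {n : ℕ} (φ ψ : Form n) : Form n
  | imp {n : ℕ} (φ ψ : Form n) : Form n
  | all {n : ℕ} (φ : Form (n + 1)) : Form n
  | ex {n : ℕ} (φ : Form (n + 1)) : Form n

/-- the map `Z → X ⊗ X` with components `f` and `g`; the tensor product of simplicial sets is their
product -/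
def pair {Z X Y : SSet.{0}} (f : Z ⟶ X) (g : Z ⟶ Y) : Z ⟶ X ⊗ Y :=
  CartesianMonoidalCategory.lift f g

/-- the interpretation of a term in `n` variables, a map `X ^ n → X` -/
def tm {X : SSet.{0}} (μ : X ⊗ X ⟶ X) {n : ℕ} : Term n → (pw X n ⟶ X)
  | .var i => pr X i
  | .mul s t => pair (tm μ s) (tm μ t) ≫ μ

/-- `E` over `X ^ n` is an interpretation of the formula `φ` when the sort is interpreted by `X` and
the function symbol by `μ`:

* `⊤` is a terminal object and `⊥` an initial object of the simplicial sets over `X ^ n`;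
* `s = t` is the object of the homotopies from `s` to `t`, that is, the pullback of the path
  space `X ^ Δ[1]` along `(s, t) : X ^ n → X × X`: it carries a universal homotopy;
* `∧`, `∨` are products and coproducts over `X ^ n`;
* `φ ⇒ ψ` is an exponential `B ^ A` over `X ^ n`: it carries a universal map `E × A → B`, where
  `E × A` is the pullback of `E` to `A` composed with `A → X ^ n`;
* `∀` carries a universal map from its pullback to `X ^ (n + 1)` to the interpretation of `φ`
  (right adjoint of the pullback);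
* `∃` is the composition with the projection `X ^ (n + 1) → X ^ n`. -/
def IsInterp {X : SSet.{0}} (μ : X ⊗ X ⟶ X) : {n : ℕ} → Form n → Over (pw X n) → Prop
  | _, .top, E => Nonempty (IsTerminal E)
  | _, .bot, E => Nonempty (IsInitial E)
  | _, .eq s t, E => ∃ H : SSet.Homotopy (E.hom ≫ tm μ s) (E.hom ≫ tm μ t),
      ∀ (T : Over (pw X _)) (G : SSet.Homotopy (T.hom ≫ tm μ s) (T.hom ≫ tm μ t)),
        ∃! h : T ⟶ E, (h.left ▷ (SSet.stdSimplex.obj (SimplexCategory.mk 1) : SSet.{0})) ≫ H.h = G.h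
  | _, .and φ ψ, E => ∃ A B, IsInterp μ φ A ∧ IsInterp μ ψ B ∧
      ∃ (a : E ⟶ A) (b : E ⟶ B), Nonempty (IsLimit (BinaryFan.mk a b))
  | _, .or φ ψ, E => ∃ A B, IsInterp μ φ A ∧ IsInterp μ ψ B ∧
      ∃ (a : A ⟶ E) (b : B ⟶ E), Nonempty (IsColimit (BinaryCofan.mk a b))
  | _, .imp φ ψ, E => ∃ A B, IsInterp μ φ A ∧ IsInterp μ ψ B ∧
      ∃ ev : (Over.map A.hom).obj ((Over.pullback A.hom).obj E) ⟶ B,
        ∀ (T : Over (pw X _)) (g : (Over.map A.hom).obj ((Over.pullback A.hom).obj T) ⟶ B),
          ∃! h : T ⟶ E, (Over.map A.hom).map ((Over.pullback A.hom).map h) ≫ ev = g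
  | n, .all φ, E => ∃ A, IsInterp μ φ A ∧ ∃ ev : (Over.pullback (prn X n)).obj E ⟶ A,
      ∀ (T : Over (pw X n)) (g : (Over.pullback (prn X n)).obj T ⟶ A),
        ∃! h : T ⟶ E, (Over.pullback (prn X n)).map h ≫ ev = g
  | n, .ex φ, E => ∃ A, IsInterp μ φ A ∧ Nonempty (E ≅ (Over.map (prn X n)).obj A)

/-- The sentence `φ` is satisfied by `(X, μ)`: its interpretation (which is unique up to isomorphism
over `X ^ 0`) is not empty. -/
def Holds {X : SSet.{0}} (μ : X ⊗ X ⟶ X) (φ : Form 0) : Prop :=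
  ∃ E : Over (pw X 0), IsInterp μ φ E ∧ Nonempty (E.left.obj (op (SimplexCategory.mk 0)))

/-! ### The pentagon condition -/

/-- the standard simplex -/
abbrev Dl (k : ℕ) : SSet.{0} := SSet.stdSimplex.obj (SimplexCategory.mk k)

/-- the face `i` of a map defined on a cylinder `Z ⊗ Δ[2]` -/
def fc {Z X : SSet.{0}} (T : Z ⊗ Dl 2 ⟶ X) (i : Fin 3) : Z ⊗ Dl 1 ⟶ X :=
  (Z ◁ SSet.stdSimplex.map (SimplexCategory.δ i)) ≫ T

/-- the map `X ^ n → X ^ k` given by `k` terms in `n` variables -/
def tup {X : SSet.{0}} (μ : X ⊗ X ⟶ X) {n k : ℕ} (v : Fin k → Term n) : pw X n ⟶ pw X k where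
  app m := ↾ fun x i => (tm μ (v i)).app m x
  naturality m m' f := by
    ext x
    funext i
    exact ConcreteCategory.congr_hom ((tm μ (v i)).naturality f) x

/-- the homotopy `h`, evaluated at `k` terms in `n` variables -/
def at' {X : SSet.{0}} (μ : X ⊗ X ⟶ X) {n k : ℕ} (h : pw X k ⊗ Dl 1 ⟶ X) (v : Fin k → Term n) :
    pw X n ⊗ Dl 1 ⟶ X :=
  (tup μ v ▷ Dl 1) ≫ h

/-- **The `A_4` condition (Stasheff pentagon, without unit).** There is a homotopy
`α : μ (μ × 1) ≃ μ (1 × μ)` of maps `X ^ 3 → X` such that the composite of `α (ab, c, d)` and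
`α (a, b, cd)` is homotopic, relative to the end points, to the composite of `α (a, b, c) d`,
`α (a, bc, d)` and `a α (b, c, d)`. The last condition is given by three triangles of maps
`X ^ 4 → X`: `T1` says that the edge `D` is a composite of `α (ab, c, d)` and `α (a, b, cd)`, `T2`
says that the edge `E` is a composite of `α (a, b, c) d` and `α (a, bc, d)`, and `T3` says that `D`
is a composite of `E` and `a α (b, c, d)`. -/
def A4 {X : SSet.{0}} (μ : X ⊗ X ⟶ X) : Prop :=
  ∃ α : SSet.Homotopy (tm μ (.mul (.mul (.var 0) (.var 1)) (.var 2) : Term 3))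
      (tm μ (.mul (.var 0) (.mul (.var 1) (.var 2)) : Term 3)),
    ∃ (D E : pw X 4 ⊗ Dl 1 ⟶ X) (T1 T2 T3 : pw X 4 ⊗ Dl 2 ⟶ X),
      fc T1 2 = at' μ α.h ![.mul (.var 0) (.var 1), .var 2, (.var 3 : Term 4)] ∧
      fc T1 0 = at' μ α.h ![.var 0, .var 1, (.mul (.var 2) (.var 3) : Term 4)] ∧
      fc T1 1 = D ∧
      fc T2 2 = pair (at' μ α.h ![.var 0, .var 1, (.var 2 : Term 4)])
        (CartesianMonoidalCategory.fst _ _ ≫ pr X 3) ≫ μ ∧
      fc T2 0 = at' μ α.h ![.var 0, .mul (.var 1) (.var 2), (.var 3 : Term 4)] ∧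
      fc T2 1 = E ∧
      fc T3 2 = E ∧
      fc T3 0 = pair (CartesianMonoidalCategory.fst _ _ ≫ pr X 0)
        (at' μ α.h ![.var 1, .var 2, (.var 3 : Term 4)]) ≫ μ ∧
      fc T3 1 = D

/-! ### Forcing -/

/-- Forcing: the truth of a formula at a connected simplicial set `Z` over `X ^ n` -/
def Forces {X : SSet.{0}} (μ : X ⊗ X ⟶ X) : {n : ℕ} → Form n → (Z : SSet.{0}) → (Z ⟶ pw X n) → Prop
  | _, .top, _, _ => True
  | _, .bot, _, _ => False
  | _, .eq s t, _, a => Nonempty (SSet.Homotopy (a ≫ tm μ s) (a ≫ tm μ t))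
  | _, .and φ ψ, Z, a => Forces μ φ Z a ∧ Forces μ ψ Z a
  | _, .or φ ψ, Z, a => Forces μ φ Z a ∨ Forces μ ψ Z a
  | _, .imp φ ψ, Z, a => ∀ (W : SSet.{0}) (_ : W.IsConnected) (f : W ⟶ Z),
      Forces μ φ W (f ≫ a) → Forces μ ψ W (f ≫ a)
  | _, .all φ, Z, a => ∀ (W : SSet.{0}) (_ : W.IsConnected) (f : W ⟶ Z) (b : W ⟶ X),
      Forces μ φ W (cns (f ≫ a) b)
  | _, .ex φ, Z, a => ∃ b : Z ⟶ X, Forces μ φ Z (cns a b)

end Pool.Agent.L7h34.PG
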