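import Pool.Agent.L7h34.PG.Defs

/-!
# The statement: interpretation of formulas and the pentagon condition

`Term n`, `Form n`, `tm μ t` are in the file Defs. `Interp μ φ E` : the simplicial set `E` over `X ^ n` is
the interpretation of the formula `φ` when the sort is interpreted by `X` and the function symbol by
`μ : X × X → X`; the clauses `IsPaths`, `IsProd`, `IsSum`, `IsExp`, `IsPi`, `IsSigma` are in
`Pool/Agent/L7h74/HS/Sem.lean`. `AFour μ` : the pentagon condition.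
-/

set_option autoImplicit false

namespace Pool.Agent.L7h34.PG

open CategoryTheory Opposite Limits MonoidalCategory
open Pool.Agent.L7h74.HS (pw pr prn cns IsPaths IsProd IsSum IsExp IsPi IsSigma)

/-- `E` over `X ^ n` is an interpretation of the formula `φ`, when the sort is interpreted by `X` and
the function symbol by `μ`: terminal and initial object over `X ^ n` for `⊤`, `⊥`; the pullback along
`(s, t)` of the path space for `s = t`; product, coproduct and exponential over `X ^ n` for `∧`, `∨`, `⇒`;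
dependent product and dependent sum along the projection `X ^ (n + 1) → X ^ n` for `∀`, `∃`. -/
def Interp {X : SSet.{0}} (μ : X ⊗ X ⟶ X) : {n : ℕ} → Form n → Over (pw X n) → Prop
  | _, .top, E => Nonempty (IsTerminal E)
  | _, .bot, E => Nonempty (IsInitial E)
  | _, .eq s t, E => IsPaths (tm μ s) (tm μ t) E
  | _, .and φ ψ, E => ∃ A A', Interp μ φ A ∧ Interp μ ψ A' ∧ IsProd A A' E
  | _, .or φ ψ, E => ∃ A A', Interp μ φ A ∧ Interp μ ψ A' ∧ IsSum A A' E
  | _, .imp φ ψ, E => ∃ A A', Interp μ φ A ∧ Interp μ ψ A' ∧ IsExp A A' E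
  | n, .all φ, E => ∃ A, Interp μ φ A ∧ IsPi (prn X n) A E
  | n, .ex φ, E => ∃ A, Interp μ φ A ∧ IsSigma (prn X n) A E

/-- The sentence `φ` is satisfied by `(X, μ)`: its interpretation, a simplicial set, is not empty. (It
is unique up to isomorphism, see the theorem.) -/
def TrueIn {X : SSet.{0}} (μ : X ⊗ X ⟶ X) (φ : Form 0) : Prop :=
  ∃ E : Over (pw X 0), Interp μ φ E ∧ Nonempty (E.left.obj (op (SimplexCategory.mk 0)))

/-- the term `(x_0 x_1) x_2` -/
def lt3 : Term 3 := .mul (.mul (.var 0) (.var 1)) (.var 2)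

/-- the term `x_0 (x_1 x_2)` -/
def rt3 : Term 3 := .mul (.var 0) (.mul (.var 1) (.var 2))

section

variable {X : SSet.{0}} (μ : X ⊗ X ⟶ X) (h : pw X 3 ⊗ Dl 1 ⟶ X)

/-- the homotopy `h (ab, c, d)`, where `(a, b, c, d)` are the four coordinates of `X ^ 4` -/
def K1 : pw X 4 ⊗ Dl 1 ⟶ X := at' μ h ![.mul (.var 0) (.var 1), .var 2, (.var 3 : Term 4)]

/-- the homotopy `h (a, b, cd)` -/
def K2 : pw X 4 ⊗ Dl 1 ⟶ X := at' μ h ![.var 0, .var 1, (.mul (.var 2) (.var 3) : Term 4)]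

/-- the homotopy `h (a, b, c) d` -/
def K3 : pw X 4 ⊗ Dl 1 ⟶ X :=
  pair (at' μ h ![.var 0, .var 1, (.var 2 : Term 4)])
    (CartesianMonoidalCategory.fst _ _ ≫ pr X 3) ≫ μ

/-- the homotopy `h (a, bc, d)` -/
def K4 : pw X 4 ⊗ Dl 1 ⟶ X := at' μ h ![.var 0, .mul (.var 1) (.var 2), (.var 3 : Term 4)]

/-- the homotopy `a h (b, c, d)` -/
def K5 : pw X 4 ⊗ Dl 1 ⟶ X :=
  pair (CartesianMonoidalCategory.fst _ _ ≫ pr X 0)
    (at' μ h ![.var 1, .var 2, (.var 3 : Term 4)]) ≫ μ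

end

/-- `T` is a triangle, in the simplicial set of the maps `Z → X`, whose edges are `a` (from the vertex
`0` to the vertex `1`), `b` (from `1` to `2`) and `c` (from `0` to `2`); so `c` is a composite of `a`
and `b` -/
def IsTri {Z X : SSet.{0}} (T : Z ⊗ Dl 2 ⟶ X) (a b c : Z ⊗ Dl 1 ⟶ X) : Prop :=
  fc T 2 = a ∧ fc T 0 = b ∧ fc T 1 = c

/-- The pentagon for a homotopy `h`: the composite `D` of `h (ab, c, d)` and `h (a, b, cd)` is also a
composite of `E` and `a h (b, c, d)`, where `E` is a composite of `h (a, b, c) d` and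
`h (a, bc, d)`. -/
def Pent {X : SSet.{0}} (μ : X ⊗ X ⟶ X) (h : pw X 3 ⊗ Dl 1 ⟶ X) : Prop :=
  ∃ (D E : pw X 4 ⊗ Dl 1 ⟶ X) (T1 T2 T3 : pw X 4 ⊗ Dl 2 ⟶ X),
    IsTri T1 (K1 μ h) (K2 μ h) D ∧ IsTri T2 (K3 μ h) (K4 μ h) E ∧ IsTri T3 E (K5 μ h) D

/-- `h` is a homotopy from `f` to `g` -/
def IsHtp {Z X : SSet.{0}} (h : Z ⊗ Dl 1 ⟶ X) (f g : Z ⟶ X) : Prop :=
  SSet.ι₀ ≫ h = f ∧ SSet.ι₁ ≫ h = g

/-- **The `A_4` condition (Stasheff pentagon, without unit).** There is a homotopy `h` from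
`(x_0 x_1) x_2` to `x_0 (x_1 x_2)`, as maps `X ^ 3 → X`, such that the composite of `h (ab, c, d)` and
`h (a, b, cd)` is homotopic, relative to the end points, to the composite of `h (a, b, c) d`,
`h (a, bc, d)` and `a h (b, c, d)`. -/
def AFour {X : SSet.{0}} (μ : X ⊗ X ⟶ X) : Prop :=
  ∃ h : pw X 3 ⊗ Dl 1 ⟶ X, IsHtp h (tm μ lt3) (tm μ rt3) ∧ Pent μ h

end Pool.Agent.L7h34.PG
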