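import Pool.Agent.L7h34.PG.Defs

/-!
# The structures

`G` : the group `(Z / 3) ^ 2 ⋊ {1, -1}` of order 18. `XX S` : the simplicial set whose simplices are the
elements of `El (Bg m) S`; it is a disjoint union of points and of classifying spaces of `G`.
`mm σ` : the operation given by a permutation `σ` of `S`.
-/

set_option autoImplicit false

namespace Pool.Agent.L7h34.PG

open CategoryTheory Opposite Limits MonoidalCategory
open Pool.Agent.L7h74.HS (pw pr prn cns)

/-! ### The group -/

/-- the group `(Z / 3) ^ 2 ⋊ {1, -1}`; the component `s` is the sign -/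
@[ext] structure G : Type where
  x : ZMod 3
  y : ZMod 3
  s : Bool
  deriving DecidableEq

/-- the action of the sign -/
def sg (s : Bool) (v : ZMod 3) : ZMod 3 := if s then -v else v

instance : Mul G := ⟨fun a b => ⟨a.x + sg a.s b.x, a.y + sg a.s b.y, a.s ^^ b.s⟩⟩
instance : One G := ⟨⟨0, 0, false⟩⟩
instance : Inv G := ⟨fun a => ⟨-sg a.s a.x, -sg a.s a.y, a.s⟩⟩

theorem mul_def (a b : G) : a * b = ⟨a.x + sg a.s b.x, a.y + sg a.s b.y, a.s ^^ b.s⟩ := rfl
theorem one_def : (1 : G) = ⟨0, 0, false⟩ := rfl
theorem inv_def (a : G) : a⁻¹ = ⟨-sg a.s a.x, -sg a.s a.y, a.s⟩ := rfl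

instance : Group G where
  mul_assoc a b c := by
    obtain ⟨x, y, s⟩ := a
    obtain ⟨x', y', s'⟩ := b
    obtain ⟨x'', y'', s''⟩ := c
    cases s <;> cases s' <;> cases s'' <;> simp only [mul_def, sg, Bool.xor_false,
      Bool.xor_true, Bool.not_true, Bool.not_false, if_true, if_false,
      Bool.false_eq_true, G.mk.injEq, and_true] <;> constructor <;> ring
  one_mul a := by
    obtain ⟨x, y, s⟩ := a
    simp [mul_def, one_def, sg]
  mul_one a := by
    obtain ⟨x, y, s⟩ := a
    cases s <;> simp [mul_def, one_def, sg]
  inv_mul_cancel a := by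
    obtain ⟨x, y, s⟩ := a
    cases s <;> simp [mul_def, one_def, inv_def, sg]

/-- the element `τ = (0, -1)` -/
def tau : G := ⟨0, 0, true⟩

/-- the powers of `τ`, with exponent modulo 2 -/
def tp (e : ZMod 2) : G := if e = 0 then 1 else tau

/-- the powers of `α`, `α (x, y, s) = (x, -y, s)` -/
def pa (e : ZMod 2) (g : G) : G := if e = 0 then g else ⟨g.x, -g.y, g.s⟩

/-- `β (x, y, s) = (y, x, s)`, or the identity -/
def pb (b : Bool) (g : G) : G := if b then ⟨g.y, g.x, g.s⟩ else g

/-- the homomorphism `G → Z / 2` -/
def sn (g : G) : ZMod 2 := if g.s then 1 else 0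

/-! ### Morphisms -/

/-- the kinds of morphisms -/
inductive Kd : Type
  /-- a loop at an object of level `false` -/
  | ge
  /-- a loop at an object of level `true` -/
  | gv
  /-- an arrow `(false, s) → (true, s)` -/
  | a0
  /-- an arrow `(false, s) → (true, σ s)` -/
  | a1
  deriving DecidableEq

/-- the level of the source -/
def src : Kd → Bool
  | .ge => false
  | .gv => true
  | .a0 => false
  | .a1 => false

/-- the level of the target -/
def tgt : Kd → Bool
  | .ge => false
  | .gv => true
  | .a0 => true
  | .a1 => true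

/-- the shift -/
def sh : Kd → Bool
  | .ge => false
  | .gv => false
  | .a0 => false
  | .a1 => true

/-- the kind of a composite -/
def kc : Kd → Kd → Option Kd
  | .ge, .ge => some .ge
  | .ge, .a0 => some .a0
  | .ge, .a1 => some .a1
  | .a0, .gv => some .a0
  | .a1, .gv => some .a1
  | .gv, .gv => some .gv
  | _, _ => none

/-! ### Elements -/

/-- The shapes with an index: `u l` is a point; `y l c` is an element of the copy of `B`
attached to the object of level `l`; `m k e` is a morphism. -/
inductive Sh (B : Type) : Type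
  | u (l : Bool) : Sh B
  | y (l : Bool) (c : B) : Sh B
  | m (k : Kd) (e : ZMod 2) : Sh B

/-- The elements: `zero`, `z`, and the elements `ix a s` of shape `a` and index `s`. -/
inductive El (B S : Type) : Type
  | zero : El B S
  | z : El B S
  | ix (a : Sh B) (s : S) : El B S

/-- functoriality in `B` -/
def Sh.map {B B' : Type} (f : B → B') : Sh B → Sh B'
  | .u l => .u l
  | .y l c => .y l (f c)
  | .m k e => .m k e

/-- functoriality in `B` -/
def El.map {B B' S : Type} (f : B → B') : El B S → El B' S
  | .zero => .zero
  | .z => .z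
  | .ix a s => .ix (a.map f) s

/-- replace the index by `s'` -/
def El.ren {B S S' : Type} (s' : S') : El B S → El B S'
  | .zero => .zero
  | .z => .z
  | .ix a _ => .ix a s'

/-- the shape of the product of two elements with an index, when it is not zero; the first boolean
`i` gives the condition on the indices (`s' = σ ^ i s`) and the second boolean `j` the index of the
product, `σ ^ j s` -/
def tbl {B : Type} (P : Kd → ZMod 2 → B → B) : Sh B → Sh B → Option (Sh B × Bool × Bool)
  | .u l, .m k _ => if src k = l then some (.u (tgt k), false, sh k) else none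
  | .y l c, .m k e => if src k = l then some (.y (tgt k) (P k e c), false, sh k) else none
  | .m k e, .m k' e' => (kc k k').map fun k'' => (.m k'' (e + e'), sh k, false)
  | _, _ => none

/-- `σ s` or `s` -/
def sft {S : Type} (σ : Equiv.Perm S) (b : Bool) (s : S) : S := if b then σ s else s

open Classical in
/-- the product of two elements -/
noncomputable def mul {B S : Type} (o : B) (P : Kd → ZMod 2 → B → B) (σ : Equiv.Perm S) :
    El B S → El B S → El B S
  | .z, .ix (.u l) s => .ix (.y l o) s
  | .ix a s, .ix b s' =>
    match tbl P a b with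
    | some (c, i, j) => if s' = sft σ i s then .ix c (sft σ j s) else .zero
    | none => .zero
  | _, _ => .zero

/-! ### The simplicial set -/

/-- the simplices of the classifying space of `G`: families of elements `c i j` of `G`, where `i`, `j`
are vertices, such that `c i j * c j k = c i k` -/
def Bg (m : SimplexCategoryᵒᵖ) : Type :=
  {c : Fin (m.unop.len + 1) → Fin (m.unop.len + 1) → G // ∀ i j k, c i j * c j k = c i k}

/-- restriction -/
def Bg.res {m m' : SimplexCategoryᵒᵖ} (f : m ⟶ m') (c : Bg m) : Bg m' :=
  ⟨fun i j => c.1 (f.unop.toOrderHom i) (f.unop.toOrderHom j), fun _ _ _ => c.2 _ _ _⟩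

/-- the simplicial set with index set `S` -/
def XX (S : Type) : SSet.{0} where
  obj m := El (Bg m) S
  map f := ↾ El.map (Bg.res f)
  map_id m := by
    ext x
    rcases x with _ | _ | ⟨(_ | _ | _), s⟩ <;> rfl
  map_comp f g := by
    ext x
    rcases x with _ | _ | ⟨(_ | _ | _), s⟩ <;> rfl

/-- the simplex of the classifying space all of whose edges are `1` -/
def Bg.one (m : SimplexCategoryᵒᵖ) : Bg m := ⟨fun _ _ => 1, fun _ _ _ => mul_one 1⟩

theorem pa_mul (e : ZMod 2) (g h : G) : pa e (g * h) = pa e g * pa e h := by
  unfold pa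
  split_ifs
  · rfl
  · obtain ⟨x, y, s⟩ := g
    obtain ⟨x', y', s'⟩ := h
    cases s <;> simp [mul_def, sg, add_comm]

theorem pb_mul (b : Bool) (g h : G) : pb b (g * h) = pb b g * pb b h := by
  cases b <;> rfl

/-- the endomorphism `α ^ e ∘ β ^ (sh k)` of `G` -/
def pg (k : Kd) (e : ZMod 2) (g : G) : G := pa e (pb (sh k) g)

theorem pg_mul (k : Kd) (e : ZMod 2) (g h : G) : pg k e (g * h) = pg k e g * pg k e h := by
  unfold pg
  rw [pb_mul, pa_mul]

/-- the same on the simplices of the classifying space -/
def Bg.P (m : SimplexCategoryᵒᵖ) (k : Kd) (e : ZMod 2) (c : Bg m) : Bg m :=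
  ⟨fun i j => pg k e (c.1 i j), fun i j l => by rw [← pg_mul, c.2]⟩

theorem mul_map {S : Type} (σ : Equiv.Perm S) {m m' : SimplexCategoryᵒᵖ} (f : m ⟶ m')
    (a b : El (Bg m) S) :
    mul (Bg.one m') (Bg.P m') σ (a.map (Bg.res f)) (b.map (Bg.res f)) =
      (mul (Bg.one m) (Bg.P m) σ a b).map (Bg.res f) := by
  rcases a with _ | _ | ⟨(_ | _ | _), s⟩ <;> rcases b with _ | _ | ⟨(_ | _ | _), s'⟩ <;>
    try rfl
  all_goals
    simp only [El.map, Sh.map, mul, tbl]
  · rename_i l k e
    by_cases h1 : src k = l
    · simp only [h1, if_true]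
      by_cases h2 : s' = sft σ false s
      · simp only [h2, if_true]
        try rfl
      · simp only [h2, if_false]
    · simp only [h1, if_false]
  · rename_i l c k e
    by_cases h1 : src k = l
    · simp only [h1, if_true]
      by_cases h2 : s' = sft σ false s
      · simp only [h2, if_true]
        try rfl
      · simp only [h2, if_false]
    · simp only [h1, if_false]
  · rename_i k e k' e'
    cases h1 : kc k k' with
    | none => simp
    | some k'' =>
      simp only [Option.map_some]
      by_cases h2 : s' = sft σ (sh k) s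
      · simp only [h2, if_true]
        try rfl
      · simp only [h2, if_false]

/-- the operation -/
noncomputable def mm {S : Type} (σ : Equiv.Perm S) : XX S ⊗ XX S ⟶ XX S where
  app m := ↾ fun p => mul (Bg.one m) (Bg.P m) σ p.1 p.2
  naturality m m' f := by
    ext p
    exact mul_map σ f p.1 p.2

end Pool.Agent.L7h34.PG
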